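import Pool.Agent.Lib.MP_69a698_al.Defs
import Pool.Agent.Lib.MP_69a698_al.Lower
import Pool.Agent.Lib.MP_69a698_al.Ext

/-! # MP_69a698_al, Q1: the Lech–Mumford constant is not invariant under flat local extensions
`(R, 𝔪, k) → (R', 𝔪', k')` of complete local rings with `𝔪' = 𝔪R'` and `k'/k` separable. -/

open IsLocalRing Pool.Agent.Lib.MP_69a698_al
open scoped TensorProduct ENNReal

namespace Pool.Agent.Results.MP_69a698_al.SeparableCounterexample

universe u

/-- **Disproof of Q1.** There are complete Noetherian local rings `R`, `R'` and a (finite) flat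
local homomorphism `R → R'` with `𝔪R' = 𝔪'` and separable residue field extension, such that
`lm(R) ≤ 290/21 < 83/6 ≤ lm(R')`. -/
theorem result :
    ∃ (R R' : Type) (_ : CommRing R) (_ : CommRing R') (_ : IsLocalRing R) (_ : IsLocalRing R')
      (_ : Algebra R R') (_ : IsLocalHom (algebraMap R R')),
      IsNoetherianRing R ∧ IsNoetherianRing R' ∧
      IsAdicComplete (maximalIdeal R) R ∧ IsAdicComplete (maximalIdeal R') R' ∧
      ringKrullDim R = 3 ∧ ringKrullDim R' = 3 ∧
      Module.Finite R R' ∧ Module.Flat R R' ∧
      (maximalIdeal R).map (algebraMap R R') = maximalIdeal R' ∧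
      Algebra.IsSeparable (ResidueField R) (ResidueField R') ∧
      (∀ (L : Type u) [Field L] [Algebra (ResidueField R) L],
        IsReduced (ResidueField R' ⊗[ResidueField R] L)) ∧
      lechMumford R ≤ 290 / 21 ∧ 83 / 6 ≤ lechMumford R' ∧ lechMumford R ≠ lechMumford R' := by
  let alg : Algebra RR RC := (inc (Fin 35)).toAlgebra
  have hloc : IsLocalHom (algebraMap RR RC) := isLocalHom_inc (Fin 35)
  have hfree : Module.Free RR RC ∧ Module.Finite RR RC :=
    free_of_pair (R := RR) (R' := RC) (II (Fin 35))
      (fun x => ⟨_, _, inc_surj (Fin 35) x⟩) (fun a b h => inc_add_zero (Fin 35) a b h)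
  have := hfree.1
  have := hfree.2
  have hsep : Algebra.IsSeparable (ResidueField RR) (ResidueField RC) :=
    separable_residue (R := RR) (R' := RC)
  have hne : lechMumford RR ≠ lechMumford RC := by
    intro h
    have h1 := lechMumford_RR_le
    rw [h] at h1
    exact absurd (le_lechMumford_RC.trans h1) (not_le.mpr lt_const)
  exact ⟨RR, RC, inferInstance, inferInstance, inferInstance, inferInstance, alg, hloc,
    inferInstance, inferInstance, Dat.isAdicComplete, Dat.isAdicComplete,
    Dat.ringKrullDim_eq, Dat.ringKrullDim_eq, hfree.2, inferInstance,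
    map_maximalIdeal (Fin 35), hsep,
    fun L _ _ => reduced_of_separable' (k := ResidueField RR) (k' := ResidueField RC) L,
    lechMumford_RR_le, le_lechMumford_RC, hne⟩

end Pool.Agent.Results.MP_69a698_al.SeparableCounterexample
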